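import Pool.Agent.V7H14.TR.Par

/-!
# MP_c95b3b_ag: Zilber's conjecture for the members of families of subvarieties of tori whose parameters are the best
approximation vectors of systems of linear forms

The families are those of the starting theorem `ManyParameters`: `F` is a finite system of polynomials in the
coordinates `x ∈ (ℂˣ)^k` and in auxiliary coordinates `y ∈ ℂ^N`, with coefficients `c q β` in `ℤ[t_0; t_1, …, t_s]`, and
`X_t` is the set of the `x` for which some `(x, y)` is a solution (`solT`). Each coefficient has a well-defined order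
along each of the hypersurfaces `h_1, …, h_M` of the space of the parameters (`HasOrd`), and the tropicalizations of the
family along the `h_l` exclude all linear subspaces of dimension less than `k - m` (`GenericT`). `NoAtypicalT f K m X`
says that `X` has no atypical intersection with the cosets of algebraic subgroups of the torus by the points whose
coordinates are units integral over `ℤ[Γ]`.

**Theorem.** Let `β ∈ ℝ^m`. (1) Let `τ > 0`. There is ONE set `E` of real matrices `α` with `s + 1` rows and `m`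
columns, of Hausdorff dimension at most `s m + (m + s) / (1 + τ)`, such that for all `α` outside `E`, all constants `c`
and ALL families with `s + 1` parameters, of subvarieties of tori of any dimensions, all `K` and `Γ`: all but
finitely many of the integral vectors `q` with `‖(q α)_j - β_j‖ ≤ c |q| ^ (-τ)`, `j ≤ m`, (`‖x‖` the distance to the
nearest integer, `|q|` the maximum norm) are such that `X_q` has no atypical intersections.
(2) For almost all `α` this is true for all `τ > s / m`, `τ > 0`.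

For `β = 0`, `c = 1` and `τ = (s + 1) / m` these `q` include all best approximation vectors of the system of the linear
forms `q α` (Dirichlet, Minkowski); for one parameter (`s = 0`) and `m = 1` the denominators of the convergents of the
continued fraction of the real number `α`, and (2) is about the far more numerous denominators `q` with
`‖q α - β‖ ≤ q ^ (-τ)`, for any `τ > 0`.

The best approximation vectors are very sparse (about `log B` of them have norm at most `B`); the starting
theorem `ManyParameters` bounds the number of the exceptional parameters in boxes by `B ^ (s + ε)`.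

Proof. By the local criterion of the starting files (`Pool.Agent.N763.RO`, copied) a member is good if `h_l(t)` has a
prime factor above `P₀` which does not divide `G_l(t)`, for each `l`. There are countably many pairs `(h, G)`; for each
of them the exceptional vectors are counted in `Pool.Agent.R424.MP`, and the tool `Pool.Agent.N671.DA` bounds
the dimension of the set of the matrices with infinitely many exceptional approximation vectors.
-/

set_option autoImplicit false

namespace Pool.Agent.Results.MP_c95b3b_ag.ApproximationVectorsH14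

open MeasureTheory
open Pool.Agent.V7H14.TR (AlmostAllGood almostAllGood_of Dat Bd count_Bd box_fin)

/-- the integral vectors `q` with `‖(q α)_j - β_j‖ ≤ c |q| ^ (-τ)` for all `j` -/
def Solutions {s m : ℕ} (α : Fin (s + 1) × Fin m → ℝ) (β : Fin m → ℝ) (c τ : ℝ) : Set (Fin (s + 1) → ℤ) :=
  {q | ∀ j, ∃ p : ℤ, |∑ i, (q i : ℝ) * α (i, j) - β j - p| ≤ c * ‖q‖ ^ (-τ)}

lemma thin {s : ℕ} (d : Dat s) : Pool.Agent.N671.DA.Thin (Bd d) (s : ℝ) := by
  intro ε hε
  obtain ⟨C, hC⟩ := count_Bd d hε
  refine ⟨|C|, fun X hX => ?_⟩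
  have h1 : 1 ≤ ⌊X⌋₊ := Nat.le_floor (by exact_mod_cast hX)
  have h2 : (⌊X⌋₊ : ℝ) ≤ X := Nat.floor_le (by linarith)
  have hsub : {q : Fin (s + 1) → ℤ | q ∈ Bd d ∧ ∀ i, |(q i : ℝ)| ≤ X} ⊆
      {q : Fin (s + 1) → ℤ | (∀ i, |q i| ≤ ((⌊X⌋₊ : ℕ) : ℤ)) ∧ q ∈ Bd d} := by
    rintro q ⟨h3, h4⟩
    refine ⟨fun i => ?_, h3⟩
    have h5 := h4 i
    have h6 : ((|q i|).toNat : ℝ) ≤ X := by
      have h7 : (((|q i|).toNat : ℤ) : ℝ) = |(q i : ℝ)| := by
        rw [Int.toNat_of_nonneg (abs_nonneg _)]
        push_cast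
        rfl
      have h8 : (((|q i|).toNat : ℕ) : ℝ) = (((|q i|).toNat : ℤ) : ℝ) := by push_cast; rfl
      rw [h8, h7]
      exact h5
    have h9 : (|q i|).toNat ≤ ⌊X⌋₊ := Nat.le_floor h6
    have h10 : |q i| = (((|q i|).toNat : ℕ) : ℤ) := (Int.toNat_of_nonneg (abs_nonneg _)).symm
    rw [h10]
    exact_mod_cast h9
  calc (({q : Fin (s + 1) → ℤ | q ∈ Bd d ∧ ∀ i, |(q i : ℝ)| ≤ X}.ncard : ℕ) : ℝ)
      ≤ ({q : Fin (s + 1) → ℤ | (∀ i, |q i| ≤ ((⌊X⌋₊ : ℕ) : ℤ)) ∧ q ∈ Bd d}.ncard : ℝ) :=
        Nat.cast_le.2 (Set.ncard_le_ncard hsub ((box_fin _).subset fun q hq => hq.1))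
    _ ≤ C * (⌊X⌋₊ : ℝ) ^ ((s : ℝ) + ε) := hC _ h1
    _ ≤ |C| * X ^ ((s : ℝ) + ε) :=
        mul_le_mul (le_abs_self C) (Real.rpow_le_rpow (by positivity) h2 (by positivity)) (by positivity)
          (abs_nonneg C)

lemma main (s m : ℕ) (β : Fin m → ℝ) (τ : ℝ) (hτ : 0 < τ) : ∃ E : Set (Fin (s + 1) × Fin m → ℝ),
    dimH E ≤ ENNReal.ofReal (s * m + (m + s) / (1 + τ)) ∧
      ∀ α, α ∉ E → ∀ c : ℝ, AlmostAllGood s (Solutions α β c τ) := by
  have h1 : ∀ d : Dat s, ∃ E : Set (Fin (s + 1) × Fin m → ℝ),
      dimH E ≤ ENNReal.ofReal (s * m + (m + s) / (1 + τ)) ∧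
      ∀ α, α ∉ E → ∀ c : ℝ, {q | q ∈ Solutions α β c τ ∧ q ∈ Bd d}.Finite := by
    intro d
    obtain ⟨E, hE1, hE2⟩ := Pool.Agent.N671.DA.dim_sys (k := s + 1) (m := m) (by omega) (Bd d) (Nat.cast_nonneg s) hτ
      (thin d) β
    refine ⟨E, ?_, fun α hα c => (hE2 α hα c).subset fun q hq => ⟨hq.2, hq.1⟩⟩
    have h2 : (((s + 1 : ℕ) : ℝ) - 1) * m + (m + s) / (1 + τ) = s * m + (m + s) / (1 + τ) := by
      push_cast
      ring
    rwa [h2] at hE1
  choose E hE1 hE2 using h1
  refine ⟨⋃ d, E d, ?_, fun α hα c => almostAllGood_of fun d => ?_⟩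
  · rw [dimH_iUnion]
    exact iSup_le hE1
  · rw [Set.mem_iUnion, not_exists] at hα
    exact hE2 d α (hα d) c

lemma sol_mono {s m : ℕ} (α : Fin (s + 1) × Fin m → ℝ) (β : Fin m → ℝ) (c : ℝ) {τ τ' : ℝ} (h : τ' ≤ τ) :
    (Solutions α β c τ \ Solutions α β |c| τ').Finite := by
  refine (Set.finite_singleton (0 : Fin (s + 1) → ℤ)).subset ?_
  rintro q ⟨h1, h2⟩
  rw [Set.mem_singleton_iff]
  by_contra h0
  apply h2
  intro j
  obtain ⟨p, hp⟩ := h1 j
  refine ⟨p, hp.trans ?_⟩
  have h3 : (1 : ℝ) ≤ ‖q‖ := by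
    obtain ⟨i, hi⟩ := Function.ne_iff.1 h0
    have h4 : (1 : ℝ) ≤ ‖q i‖ := by
      rw [Int.norm_eq_abs]
      have h5 : (1 : ℤ) ≤ |q i| := Int.one_le_abs hi
      exact_mod_cast h5
    exact h4.trans (norm_le_pi_norm q i)
  exact mul_le_mul (le_abs_self c) (Real.rpow_le_rpow_of_exponent_le h3 (by linarith))
    (Real.rpow_nonneg (by linarith) _) (abs_nonneg c)

/-- **Theorem.** (1) For all matrices `α` outside ONE set of Hausdorff dimension at most
`s m + (m + s) / (1 + τ)`, for ALL families of subvarieties of tori with `s + 1` integral parameters, all but finitely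
many of the members whose parameter vector `q` satisfies `‖(q α)_j - β_j‖ ≤ c |q| ^ (-τ)` for all `j` have no atypical
intersections. (2) If `m ≥ 1`, for almost all `α` this is true for all `τ > 0` with `m τ > s`. -/
theorem result (s m : ℕ) (β : Fin m → ℝ) :
    (∀ τ : ℝ, 0 < τ → ∃ E : Set (Fin (s + 1) × Fin m → ℝ),
      dimH E ≤ ENNReal.ofReal (s * m + (m + s) / (1 + τ)) ∧
        ∀ α, α ∉ E → ∀ c : ℝ, AlmostAllGood s (Solutions α β c τ)) ∧
    (1 ≤ m → ∀ᵐ α : Fin (s + 1) × Fin m → ℝ, ∀ τ c : ℝ, (s : ℝ) < m * τ → AlmostAllGood s (Solutions α β c τ)) := by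
  refine ⟨main s m β, fun hm => ?_⟩
  have hm0 : (0 : ℝ) < m := by exact_mod_cast hm
  have hs0 : (0 : ℝ) ≤ s := Nat.cast_nonneg s
  have h1 : ∀ τ : ℚ, ∀ᵐ α : Fin (s + 1) × Fin m → ℝ, (s : ℝ) < m * (τ : ℝ) → ∀ c : ℝ,
      AlmostAllGood s (Solutions α β c τ) := by
    intro τ
    by_cases hτ : (s : ℝ) < m * (τ : ℝ)
    · have hτ0 : (0 : ℝ) < τ := by
        by_contra hcon
        push Not at hcon
        nlinarith
      obtain ⟨E, hE1, hE2⟩ := main s m β τ hτ0
      have hpos : (0 : ℝ) < (((s + 1) * m : ℕ) : ℝ) := by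
        have : 0 < (s + 1) * m := Nat.mul_pos (by omega) hm
        exact_mod_cast this
      have hzero : volume E = 0 := by
        refine measure_zero_of_dimH_lt (d := (((s + 1) * m : ℕ) : NNReal)) ?_ ?_
        · have h := hausdorffMeasure_pi_real (ι := Fin (s + 1) × Fin m)
          rw [Fintype.card_prod, Fintype.card_fin, Fintype.card_fin] at h
          have h' : ((((s + 1) * m : ℕ) : NNReal) : ℝ) = (((s + 1) * m : ℕ) : ℝ) := by push_cast; rfl
          rw [h', h]
        · refine lt_of_le_of_lt hE1 ?_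
          have h2 : ((((s + 1) * m : ℕ) : NNReal) : ENNReal) = ENNReal.ofReal (((s + 1) * m : ℕ) : ℝ) := by
            rw [ENNReal.ofReal_natCast]
            rfl
          rw [h2]
          refine (ENNReal.ofReal_lt_ofReal_iff hpos).2 ?_
          have h3 : ((m : ℝ) + s) / (1 + τ) < m := by
            rw [div_lt_iff₀ (by linarith)]
            nlinarith
          push_cast
          nlinarith
      have hae : ∀ᵐ α : Fin (s + 1) × Fin m → ℝ, α ∉ E := by
        rw [ae_iff]
        simpa using hzero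
      filter_upwards [hae] with α hα _
      exact hE2 α hα
    · exact Filter.Eventually.of_forall fun α h2 => absurd h2 hτ
  rw [← ae_all_iff] at h1
  filter_upwards [h1] with α hα τ c hτ
  have h2 : (s : ℝ) / m < τ := by
    rw [div_lt_iff₀ hm0]
    linarith
  obtain ⟨τ', h3, h4⟩ := exists_rat_btwn h2
  have h5 : (s : ℝ) < m * (τ' : ℝ) := by
    rw [div_lt_iff₀ hm0] at h3
    linarith
  exact (hα τ' h5 |c|).mono (sol_mono α β c h4.le)

end Pool.Agent.Results.MP_c95b3b_ag.ApproximationVectorsH14
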