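import Pool.Agent.V7H20.ZF.DegP

/-!
# MP_c95b3b_ag: Zilber's conjecture for all but finitely many members, with parameters of bounded degree
over a number field, of one-parameter families of subvarieties of tori

**Families.** Let `A_1, …, A_m ⊂ ℤ^n` be arbitrary finite nonempty sets of exponents and let
`c_jβ ∈ ℂ[t]` be nonzero polynomials, `β ∈ A_j`. For `t ∈ ℂ` let `X_t ⊂ (ℂ^×)^n` be the algebraic set
defined by the Laurent polynomials `f_j = ∑_β c_jβ(t) x^β`, `j ≤ m` (`member`). Every one-parameter
family of subvarieties of the torus is of this form.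

**Tropicalization.** For a point `α` of the projective line the tropicalization of the family at `α` is
the set `Trop_α` of the `w ∈ ℚ^n` such that for all `j` the minimum of the numbers
`ord_α (c_jβ) + β · w`, `β ∈ A_j`, is attained at least twice.

**Theorem.** Let `E ⊂ ℂ` be a number field, let `α_1, …, α_M` be points of the projective line over the
algebraic numbers, of arbitrary degrees, let `Z` be a set of points of the projective line over the
algebraic numbers which is stable under conjugation over `E`, and let `d` be any natural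
number. Suppose that

(`*`) if the points in `Z` and the conjugates over `E` of the `α_l`, `l ∈ I`, are at most `2 d`
points altogether, and `a_l` is a conjugate of `α_l` for all `l`, then no linear subspace of `ℚ^n` of
dimension less than `r` meets all the sets `Trop_{a_l}` with `l ∉ I`.

Then for all but finitely many algebraic numbers `t` of degree at most `d` over `E`, which are integral
over a given finitely generated ring with respect to the points in `Z`, the set `X_t` has no
atypical intersection with the torsion cosets, and more generally with the cosets `η H` of all algebraic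
subgroups `H` of the torus by all points `η` whose coordinates are units of the integral closure of
the ring generated by the values `h(t)` and `1 / h(t)`, where `h` is in a given finite set of rational
functions without zeros and poles at the conjugates of the `α_l` (for example constants): every
irreducible subset of `X_t ∩ η H` has dimension at most `dim H - r`. In particular (`H` the torus) all
components of `X_t` have dimension at most `n - r`, and `X_t` does not meet `η H` if `dim H < r`; so the
set `U(Y)` of the problem is empty for all components `Y` of `X_t` of dimension `n - r`.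

For example, if the `c_jβ` have coefficients in `E` and no linear subspace of dimension less than `r`
meets all the sets `Trop_{α_l}`, it is sufficient that all `α_l` have degree greater than `2 d` over
`E`; for `r = 1` this is the case if there is one algebraic number `α` of degree greater than `2 d` at
which one of the equations degenerates to a monomial. For the algebraic integers `t` of degree at
most `d` the degree of the `α_l` has to be at least `2 d`, for the units at least `2 d - 1`.

The starting file `TropicallyGenericFamilies` is about rational `α_l`, and the algebraic numbers `t`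
of degree at most `d` over `ℚ` (if any `N` of the sets `Trop_{α_l}` are in general position, and
`N + 2 d ≤ M`). For `d = 1` compare `FinitelyGeneratedFields` and
`MP_b7926e_nt.ConjugateParametersH20`.

The proof: if `t` is near to a conjugate of `α_l` at a place of `ℂ` which is good for the family, then
the values of the coordinates of a point of `X_t ∩ η H` give a point of `Trop_{a_l}` on the
linear space orthogonal to the group of the relations. If `t` is near to none of the conjugates of
`b_0, …, b_{2d}` at all good places then the quotients `P(b_i) / P(b_j)` of the values of the minimal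
polynomial `P` of `t` over `E` are `S`-units of a fixed number field. The values at `d + 2` of the
points satisfy a linear relation, so by the `S`-unit equation in several variables `P(b_0) / P(b_i)`
is in a finite set for all but `d` of the `i`, and `P` is determined by these quotients.
-/

set_option autoImplicit false

open Pool.Agent.V7H20.ZF

namespace Pool.Agent.Results.MP_c95b3b_ag.BoundedDegreeH20

open Pool.Agent.Results.MP_b7926e_nt.NoAtypical (coset idealOf dim)

variable {n m : ℕ}

/-- The member `X_t` of the family: the points of the torus at which all the Laurent polynomials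
`∑_β c_jβ(t) x^β` vanish. -/
def member (A : Fin m → Finset (Fin n → ℤ)) (c : Fin m → (Fin n → ℤ) → Polynomial ℂ) (t : ℂ) :
    Set (Fin n → ℂ) :=
  {x | (∀ i, x i ≠ 0) ∧ ∀ j, ∑ β ∈ A j, (c j β).eval t * ∏ i, x i ^ β i = 0}

/-- The tropicalization of a system with the supports `A_j` and coefficients of the orders `e_jβ`: the
points `w` of `ℚ^n` such that for all `j` the minimum of `e_jβ + β · w` is attained at two different
exponents `a, b ∈ A_j`. -/
def Trop (A : Fin m → Finset (Fin n → ℤ)) (e : Fin m → (Fin n → ℤ) → ℤ) : Set (Fin n → ℚ) :=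
  {w | ∀ j, ∃ a ∈ A j, ∃ b ∈ A j, a ≠ b ∧
    (e j a : ℚ) + ∑ i, (a i : ℚ) * w i = (e j b : ℚ) + ∑ i, (b i : ℚ) * w i ∧
    ∀ β ∈ A j, (e j a : ℚ) + ∑ i, (a i : ℚ) * w i ≤ (e j β : ℚ) + ∑ i, (β i : ℚ) * w i}

/-- The values at `t` of the rational functions `f / g` and `g / f`, `(f, g) ∈ U`. -/
def values (U : Finset (Polynomial ℂ × Polynomial ℂ)) (t : ℂ) : Set ℂ :=
  {x | ∃ q ∈ U, x = q.1.eval t / q.2.eval t ∨ x = q.2.eval t / q.1.eval t}

/-- `z` is a unit of the integral closure in `ℂ` of the ring generated by `Γ`. -/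
def IsUnitOver (Γ : Set ℂ) (z : ℂ) : Prop :=
  z ≠ 0 ∧ IsIntegral (Algebra.adjoin ℤ Γ) z ∧ IsIntegral (Algebra.adjoin ℤ Γ) z⁻¹

/-- `X` has no atypical intersection with the cosets of algebraic subgroups by points whose
coordinates are units over `Γ`: every irreducible subset `B` of `X ∩ η H` has dimension at most
`dim H - r`. Here `η H = {y | y ^ a = η ^ a for all a in Λ}` and `dim H = n - rank Λ`. -/
def NoAtypical (r : ℕ) (Γ : Set ℂ) (X : Set (Fin n → ℂ)) : Prop :=
  ∀ (Λ : Submodule ℤ (Fin n → ℤ)) (η : Fin n → ℂ), (∀ i, IsUnitOver Γ (η i)) →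
    ∀ B : Set (Fin n → ℂ), B ⊆ X → B ⊆ coset Λ η → (idealOf B).IsPrime →
      dim B + (r : Cardinal) + (Module.finrank ℤ Λ : Cardinal) ≤ (n : Cardinal)

/-- `t` is algebraic of degree at most `d` over `E`. -/
def DegreeAtMost (E : IntermediateField ℚ ℂ) (d : ℕ) (t : ℂ) : Prop :=
  IsAlgebraic E t ∧ (minpoly E t).natDegree ≤ d

/-- One-parameter families of subvarieties of the torus: all but finitely many members with parameter
of degree at most `d` over a number field have no atypical intersection, if the tropicalizations at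
the points which do not belong to at most `2 d` conjugates altogether are in general position. -/
theorem result {M : ℕ} (r d : ℕ) (A : Fin m → Finset (Fin n → ℤ)) (hA : ∀ j, (A j).Nonempty)
    (c : Fin m → (Fin n → ℤ) → Polynomial ℂ) (hc : ∀ j, ∀ β ∈ A j, c j β ≠ 0)
    (E : IntermediateField ℚ ℂ) [FiniteDimensional ℚ E]
    (α : Fin M → Option ℂ) (hα : ∀ l, ∀ x ∈ α l, IsAlgebraic ℚ x)
    (U : Finset (Polynomial ℂ × Polynomial ℂ))
    (hU : ∀ q ∈ U, q.1 ≠ 0 ∧ q.2 ≠ 0 ∧ ∀ l, ∀ a ∈ ConjugatesOver E (α l), ord q.1 a = ord q.2 a)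
    (G : Finset ℂ) (Z : Set (Option ℂ)) (hZ : ∀ z ∈ Z, ConjugatesOver E z ⊆ Z)
    (hZa : ∀ z ∈ Z, ∀ x ∈ z, IsAlgebraic ℚ x)
    (hgen : ∀ I : Finset (Fin M), (Z ∪ ⋃ l ∈ I, ConjugatesOver E (α l)).encard ≤ (2 * d : ℕ) →
      ∀ a : Fin M → Option ℂ, (∀ l, a l ∈ ConjugatesOver E (α l)) →
        ∀ L : Submodule ℚ (Fin n → ℚ), Module.finrank ℚ L < r →
          ∃ l ∉ I, ∀ w ∈ L, w ∉ Trop A fun j β => ord (c j β) (a l)) :
    {t : ℂ | DegreeAtMost E d t ∧ (∀ z ∈ Z, IntegralAt (G : Set ℂ) t z) ∧
      ¬ NoAtypical r (values U t) (member A c t)}.Finite := by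
  classical
  have hαi : ∀ l, ∀ x ∈ α l, IsIntegral E x := fun l x hx =>
    ((hα l x hx).extendScalars (algebraMap ℚ E).injective).isIntegral
  have hself : ∀ l, α l ∈ ConjugatesOver E (α l) := by
    intro l
    rcases hi : α l with _ | z
    · rfl
    · exact ⟨z, rfl, minpoly.aeval E z⟩
  -- the polynomials
  let S : Finset (Polynomial ℂ) := (Finset.univ.biUnion fun j => (A j).image fun β => c j β) ∪
    (U.image Prod.fst ∪ U.image Prod.snd)
  have hSc : ∀ j, ∀ β ∈ A j, c j β ∈ S := by
    intro j β hβ
    simp only [S, Finset.mem_union, Finset.mem_biUnion, Finset.mem_univ, true_and,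
      Finset.mem_image]
    exact Or.inl ⟨j, β, hβ, rfl⟩
  have hS1 : ∀ q ∈ U, q.1 ∈ S := by
    intro q hq
    simp only [S, Finset.mem_union, Finset.mem_image]
    exact Or.inr (Or.inl ⟨q, hq, rfl⟩)
  have hS2 : ∀ q ∈ U, q.2 ∈ S := by
    intro q hq
    simp only [S, Finset.mem_union, Finset.mem_image]
    exact Or.inr (Or.inr ⟨q, hq, rfl⟩)
  have hS0 : ∀ f ∈ S, f ≠ 0 := by
    intro f hf
    simp only [S, Finset.mem_union, Finset.mem_biUnion, Finset.mem_univ, true_and,
      Finset.mem_image] at hf
    rcases hf with ⟨j, β, hβ, rfl⟩ | ⟨q, hq, rfl⟩ | ⟨q, hq, rfl⟩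
    · exact hc j β hβ
    · exact (hU q hq).1
    · exact (hU q hq).2.1
  -- all the conjugates
  let C : Set (Option ℂ) := ⋃ l, ConjugatesOver E (α l)
  have hC : C.Finite := Set.finite_iUnion fun l => conj_finite (hαi l)
  let γ : Fin hC.toFinset.card → Option ℂ := fun i => (hC.toFinset.equivFin.symm i : Option ℂ)
  have hγ : ∀ a ∈ C, ∃ i, γ i = a := by
    intro a ha
    refine ⟨hC.toFinset.equivFin ⟨a, (Set.Finite.mem_toFinset hC).2 ha⟩, ?_⟩
    simp [γ]
  obtain ⟨W, hnear⟩ := exists_near S hS0 γ
  -- the exceptional parameters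
  have hroots : (⋃ f ∈ S, {t : ℂ | f.eval t = 0}).Finite := by
    refine S.finite_toSet.biUnion fun f hf => ?_
    refine (f.roots).toFinset.finite_toSet.subset fun t ht => ?_
    rw [Finset.mem_coe, Multiset.mem_toFinset, Polynomial.mem_roots (hS0 f hf)]
    exact ht
  have hfin : (⋃ I ∈ {I : Finset (Fin M) |
      ¬ (Z ∪ ⋃ l ∈ I, ConjugatesOver E (α l)).encard ≤ (2 * d : ℕ)},
      {t : ℂ | IsAlgebraic E t ∧ (minpoly E t).natDegree ≤ d ∧
        (∀ z ∈ Z, IntegralAt (G : Set ℂ) t z) ∧
        ∀ l ∈ I, ∀ b ∈ ConjugatesOver E (α l), Far (W : Set ℂ) t b}).Finite :=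
    (Set.toFinite _).biUnion fun I hI => finite_exc_deg E W G d Z hZ hZa α hα I hI
  refine (hfin.union (hroots.union (Set.finite_range fun i => (γ i).getD 0))).subset ?_
  rintro t ⟨⟨htE, htd⟩, htZ, ht⟩
  by_contra hcon
  rw [Set.mem_union, Set.mem_union, not_or, not_or] at hcon
  obtain ⟨h1, h2, h3⟩ := hcon
  apply ht
  have hev : ∀ f ∈ S, f.eval t ≠ 0 := fun f hf h => h2 (Set.mem_iUnion₂.2 ⟨f, hf, h⟩)
  let I : Finset (Fin M) := Finset.univ.filter fun l =>
    ∀ b ∈ ConjugatesOver E (α l), Far (W : Set ℂ) t b
  have hI : ∀ l, l ∈ I ↔ ∀ b ∈ ConjugatesOver E (α l), Far (W : Set ℂ) t b :=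
    fun l => by simp [I]
  have hcard : (Z ∪ ⋃ l ∈ I, ConjugatesOver E (α l)).encard ≤ (2 * d : ℕ) := by
    by_contra h
    exact h1 (Set.mem_iUnion₂.2 ⟨I, h, htE, htd, htZ, fun l hl => (hI l).1 hl⟩)
  -- the places
  have hV : ∀ l, ∃ a ∈ ConjugatesOver E (α l), l ∉ I → ∃ V : ValuationSubring ℂ,
      (∀ z ∈ W, z ∈ V) ∧ NearAt V t a := by
    intro l
    by_cases hl : l ∈ I
    · exact ⟨α l, hself l, fun h => absurd hl h⟩
    · have h4 := hl
      rw [hI] at h4
      push Not at h4
      obtain ⟨a, ha, h5⟩ := h4
      rw [Far] at h5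
      push Not at h5
      obtain ⟨V, hV1, hV2⟩ := h5
      exact ⟨a, ha, fun _ => ⟨V, fun z hz => hV1 z hz, hV2⟩⟩
  choose a ha hV using hV
  have haC : ∀ l, a l ∈ C := fun l => Set.mem_iUnion.2 ⟨l, ha l⟩
  let e := (Iᶜ).equivFin.symm
  have he : ∀ i, (e i : Fin M) ∉ I := fun i => Finset.mem_compl.1 (e i).2
  choose V hVW hVn using fun i => hV (e i) (he i)
  have hnear' : ∀ i, ∀ f ∈ S, (V i).valuation (f.eval t) =
      (V i).valuation (unif t (a (e i))) ^ ord f (a (e i)) := by
    intro i f hf
    obtain ⟨k, hk⟩ := hγ _ (haC (e i))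
    have h4 := hnear (V i) (hVW i) k t (by rw [hk]; exact hVn i) f hf
    rw [hk] at h4
    exact h4
  have hunif : ∀ i, unif t (a (e i)) ≠ 0 := by
    intro i
    have hn := hVn i
    rcases hα : a (e i) with _ | z
    · rw [hα] at hn
      have h4 : 1 < (V i).valuation t := hn
      change t⁻¹ ≠ 0
      refine inv_ne_zero ?_
      rintro rfl
      rw [map_zero] at h4
      exact absurd h4 (not_lt.2 zero_le_one)
    · change t - z ≠ 0
      refine sub_ne_zero.2 fun h => h3 ?_
      obtain ⟨k, hk⟩ := hγ _ (haC (e i))
      refine ⟨k, ?_⟩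
      simp only [hk, hα, Option.getD_some]
      exact h.symm
  intro Λ η hη B hBX hBT hB
  refine Pool.Agent.Y199.ZF.crit A hA (fun j β => (c j β).eval t)
    (fun j β hβ => hev _ (hSc j β hβ)) V (fun i => unif t (a (e i))) hunif
    (fun i => unif_lt (hVn i)) (fun i j β => ord (c j β) (a (e i)))
    (fun i j β hβ => hnear' i _ (hSc j β hβ)) (fun L hL => ?_) Λ η
    (fun i => (hη i).1) (fun i k => ?_) B hBX hBT hB
  · obtain ⟨l, hl, h4⟩ := hgen I hcard a ha L hL
    refine ⟨(Iᶜ).equivFin ⟨l, Finset.mem_compl.2 hl⟩, ?_⟩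
    have h5 : ((e ((Iᶜ).equivFin ⟨l, Finset.mem_compl.2 hl⟩) : (Iᶜ : Finset (Fin M))) : Fin M)
        = l := by
      simp [e]
    rw [h5]
    exact h4
  · -- units
    have hval : ∀ x ∈ values U t, x ∈ V i := by
      rintro x ⟨q, hq, hx⟩
      have h6 := hnear' i _ (hS1 q hq)
      have h7 := hnear' i _ (hS2 q hq)
      rw [← (hU q hq).2.2 (e i) _ (ha (e i)), ← h6] at h7
      have h8 := hev _ (hS1 q hq)
      have h9 : (V i).valuation (q.1.eval t) ≠ 0 := (Valuation.ne_zero_iff _).2 h8
      rw [← ValuationSubring.valuation_le_one_iff]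
      rcases hx with rfl | rfl
      · rw [map_div₀, h7, div_self h9]
      · rw [map_div₀, h7, div_self h9]
    have h10 := (ValuationSubring.valuation_le_one_iff _ _).2 (mem_of_integral hval (hη k).2.1)
    have h11 := (ValuationSubring.valuation_le_one_iff _ _).2 (mem_of_integral hval (hη k).2.2)
    refine le_antisymm h10 ?_
    rw [map_inv₀] at h11
    exact (inv_le_one₀ (zero_lt_iff.2 ((Valuation.ne_zero_iff _).2 (hη k).1))).1 h11

end Pool.Agent.Results.MP_c95b3b_ag.BoundedDegreeH20
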