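import Pool.Agent.V7H20.ZT.Fin
import Pool.Agent.Results.MP_c95b3b_ag.BoundedDegreeH20

/-!
# MP_c95b3b_ag: Zilber's conjecture for all but finitely many translates of an arbitrary subvariety of
a torus along a rational curve, with parameters of bounded degree

Let `V` be an arbitrary irreducible subvariety of the torus `(ℂ^×)^n`, for example a subvariety with
many atypical subvarieties, or one for which the set `U(V)` of the problem is dense.  There is a
number `κ`, depending only on `V`, with the following property.  Let `g = (p_i / q_i)_i` be any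
rational curve in the torus, `E` a number field, `d` a natural number, and let `α_1, …, α_M` be
algebraic points of the projective line.  Suppose that every nonzero character `χ` of the torus has
order zero along `g` at no more than `τ` of the points `α_l` (and at no more than `τ` of the points
`a_l`, for any choice of conjugates `a_l` of `α_l` over `E`), and that `κ τ + 2 d < M` for
different points `α_l` (in general it suffices that `κ τ < M - |I|` for every set `I` of indices
such that the conjugates of the `α_l`, `l ∈ I`, are at most `2 d` points).  Then for all but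
finitely many algebraic numbers `t` of degree at most `d` over `E` the translate `g(t) V` has only
typical intersections with the torsion cosets, and more generally with the cosets `η H`, where
the coordinates of `η` are units of the integral closure of the ring generated by finitely many
given numbers, or by the values `h(t)` and `1 / h(t)` for finitely many rational functions `h` of
order zero at all the `α_l`: every irreducible subset `B` of `g(t) V ∩ η H` satisfies
`dim B ≤ dim V + dim H - n`.  In particular (`B` a point, `η = 1`) the set `U(Y)` of the problem is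
empty for the translates `Y = g(t) V`.

For example, if any `n` of the `M` vectors of orders of `g` are linearly independent then `τ = n - 1`.

For `t` integral over `ℤ[G]` with respect to the points of a set `Z` the points of `Z` count too.

The starting file `MP_a325a5_ag.RationalTranslates` treats rational parameters `t` and integral zeros
`α_l`; the files `Translates` and `PowerTranslates` (of this problem) translates by integral vectors in
a residue class and by powers.  The proof: the translates are contained in the members of a family of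
systems of Laurent polynomials, with the monomials of algebraic relations between any `dim V + 1` of
the coordinates on `V`; if the tropicalizations of the system at more than `κ τ` of the points met one
linear space of dimension less than `n - dim V`, then some nonzero character would have order zero at
more than `τ` of them.  So the theorem follows from that on families (file `BoundedDegreeH20`).
-/

set_option autoImplicit false

open Polynomial Pool.Agent.V7H20.ZF

namespace Pool.Agent.Results.MP_c95b3b_ag.BoundedDegreeTranslatesH20

open Pool.Agent.Results.MP_b7926e_nt.NoAtypical (coset idealOf dim)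
open Pool.Agent.Results.MP_c95b3b_ag.BoundedDegreeH20 (values IsUnitOver DegreeAtMost)

variable {n : ℕ}

/-- The translate of `V` by `g`. -/
def translate (g : Fin n → ℂ) (V : Set (Fin n → ℂ)) : Set (Fin n → ℂ) :=
  {y | ∃ x ∈ V, ∀ i, y i = g i * x i}

/-- `W` has only typical intersections with the cosets of algebraic subgroups by points whose
coordinates are units over `Γ`: every irreducible subset `B` of `W ∩ η H` has dimension at most
`dim W + dim H - n`. Here `η H = {y | y ^ a = η ^ a for all a in Λ}` and `dim H = n - rank Λ`. -/
def OnlyTypical (Γ : Set ℂ) (W : Set (Fin n → ℂ)) : Prop :=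
  ∀ (Λ : Submodule ℤ (Fin n → ℤ)) (η : Fin n → ℂ), (∀ i, IsUnitOver Γ (η i)) →
    ∀ B : Set (Fin n → ℂ), B ⊆ W → B ⊆ coset Λ η → (idealOf B).IsPrime →
      dim B + (Module.finrank ℤ Λ : Cardinal) ≤ dim W

/-- All but finitely many translates of an arbitrary irreducible subvariety of the torus by the points
of degree at most `d` of a rational curve have only typical intersections, if the zeros and poles of
the curve are in general position. -/
theorem result (V : Set (Fin n → ℂ)) (hV : (idealOf V).IsPrime) (hV0 : ∀ x ∈ V, ∀ i, x i ≠ 0) :
    ∃ κ : ℕ, ∀ p q : Fin n → Polynomial ℂ, (∀ i, p i ≠ 0 ∧ q i ≠ 0) →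
      ∀ (E : IntermediateField ℚ ℂ) [FiniteDimensional ℚ E] (d τ M : ℕ) (α : Fin M → Option ℂ),
      (∀ l, ∀ x ∈ α l, IsAlgebraic ℚ x) →
      (∀ a : Fin M → Option ℂ, (∀ l, a l ∈ ConjugatesOver E (α l)) → ∀ χ : Fin n → ℤ, χ ≠ 0 →
        {l | ∑ i, χ i * (ord (p i) (a l) - ord (q i) (a l)) = 0}.ncard ≤ τ) →
      ∀ (G : Finset ℂ) (Z : Set (Option ℂ)), (∀ z ∈ Z, ConjugatesOver E z ⊆ Z) →
      (∀ z ∈ Z, ∀ x ∈ z, IsAlgebraic ℚ x) →
      (∀ I : Finset (Fin M), (Z ∪ ⋃ l ∈ I, ConjugatesOver E (α l)).encard ≤ (2 * d : ℕ) →
        κ * τ + I.card < M) →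
      ∀ U : Finset (Polynomial ℂ × Polynomial ℂ), (∀ h ∈ U, h.1 ≠ 0 ∧ h.2 ≠ 0 ∧
        ∀ l, ∀ a ∈ ConjugatesOver E (α l), ord h.1 a = ord h.2 a) →
      {t : ℂ | DegreeAtMost E d t ∧ (∀ z ∈ Z, IntegralAt (G : Set ℂ) t z) ∧
        ¬ OnlyTypical (values U t)
          (translate (fun i => (p i).eval t / (q i).eval t) V)}.Finite := by
  classical
  obtain ⟨δ, hδ⟩ := Cardinal.lt_aleph0.1 (Pool.Agent.V7H20.ZT.dim_lt V)
  obtain ⟨κ, m, A, hA, hsys⟩ := Pool.Agent.V7H20.ZT.exists_system (idealOf V) hδ
  refine ⟨κ, fun p q hpq E _ d τ M α hα hχ G Z hZ hZa hM U hU => ?_⟩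
  obtain ⟨c, hc, hmem, hgen⟩ := hsys p q hpq
  have hroots : (⋃ i, {t : ℂ | (p i).eval t = 0 ∨ (q i).eval t = 0}).Finite := by
    refine Set.finite_iUnion fun i => ?_
    refine ((p i * q i).roots.toFinset.finite_toSet).subset fun t ht => ?_
    rw [Finset.mem_coe, Multiset.mem_toFinset,
      Polynomial.mem_roots (mul_ne_zero (hpq i).1 (hpq i).2), IsRoot, eval_mul, mul_eq_zero]
    exact ht
  refine ((BoundedDegreeH20.result (n - δ) d A hA c hc E α hα U hU G Z hZ hZa
    fun I hI a ha L hL => ?_).union hroots).subset ?_
  · have h1 := hM I hI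
    obtain ⟨⟨l, hl⟩, h2⟩ := hgen {l // l ∉ I} (fun l => a l) τ
      (by rw [Pool.Agent.V7H20.ZT.card_sub]; omega)
      (fun χ hχ0 => Pool.Agent.V7H20.ZT.ncard_sub I
        (fun l => ∑ i, χ i * (ord (p i) (a l) - ord (q i) (a l)) = 0) τ (hχ a ha χ hχ0))
      L (by omega)
    exact ⟨l, hl, h2⟩
  · rintro t ⟨h1, h2, h3⟩
    by_contra hcon
    rw [Set.mem_union, not_or] at hcon
    obtain ⟨h4, h5⟩ := hcon
    have ht : ∀ i, (p i).eval t ≠ 0 ∧ (q i).eval t ≠ 0 := by
      intro i
      rw [← not_or]
      exact fun h => h5 (Set.mem_iUnion.2 ⟨i, h⟩)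
    have hg : ∀ i, (p i).eval t / (q i).eval t ≠ 0 := fun i => div_ne_zero (ht i).1 (ht i).2
    apply h3
    intro Λ η hη B hBW hBT hB
    have h6 : BoundedDegreeH20.NoAtypical (n - δ) (values U t)
        (BoundedDegreeH20.member A c t) := by
      by_contra h
      exact h4 ⟨h1, h2, h⟩
    have h7 := h6 Λ η hη B (fun y hy => ?_) hBT hB
    · exact (Pool.Agent.V7H20.ZT.dim_bound hδ Λ h7).trans
        (Pool.Agent.N712.ZT.dim_tl_le _ hg V)
    · obtain ⟨x, hx, hxy⟩ := hBW hy
      have hyx : y = fun i => (p i).eval t / (q i).eval t * x i := funext hxy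
      refine ⟨fun i => ?_, ?_⟩
      · rw [hxy]
        exact mul_ne_zero (hg i) (hV0 x hx i)
      · rw [hyx]
        exact hmem t ht x fun f hf => Pool.Agent.Results.MP_b7926e_nt.NoAtypical.mem_idealOf.1 hf x hx

end Pool.Agent.Results.MP_c95b3b_ag.BoundedDegreeTranslatesH20
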