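import Pool.Agent.V7H14.TR.Par

/-!
# MP_c95b3b_ag: Zilber's conjecture for the members of families of subvarieties of tori at ALL parameters near the
vectors of exponentially sparse sequences

The families are those of the starting theorem `ManyParameters`: `F` is a finite system of polynomials in the
coordinates `x ∈ (ℂˣ)^k` and in auxiliary coordinates `y ∈ ℂ^N`, with coefficients `c q β` in `ℤ[t_0; t_1, …, t_s]`, and
`X_t` is the set of the `x` for which some `(x, y)` is a solution (`solT`). Each coefficient has a well-defined order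
along each of the hypersurfaces `h_1, …, h_M` of the space of the parameters (`HasOrd`), and the tropicalizations of the
family along the `h_l` exclude all linear subspaces of dimension less than `k - m` (`GenericT`). `NoAtypicalT f K m X`
says that `X` has no atypical intersection with the cosets of algebraic subgroups of the torus by the points whose
coordinates are units integral over `ℤ[Γ]`.

The sequences: let `f_j`, `j = 0, 1, 2, …`, be positive functions on `(a, ∞)`, `a ≥ 0`, such that `f_j(x) / x` is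
nondecreasing, and such that the sequence `f_j(x)` has exponent of convergence at most `τ` for each `x > a`; for
instance `f_j(x) = v_j x`, `f_j(x) = x ^ (v_j)` for exponents `v_j ≥ 1`, or the orbits of any map `g` with `g(x) > x` and
`g(x) / x` nondecreasing.

**Theorem.** (1) Let `θ < 1`. There is ONE set `E` of vectors in `ℝ^(s+1)` (maximum norm), of Hausdorff dimension at
most `(s + τ) / (1 - θ)`, such that for all vectors `u` outside `E`, `‖u‖ > a`, all constants `c` and ALL families with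
`s + 1` parameters, of subvarieties of tori of any dimensions, all `K` and `Γ`: all but finitely many of the
integral vectors `t` whose coordinates differ by at most `c r_j ^ θ` from those of `(r_j / ‖u‖) u`,
`r_j = f_j(‖u‖)`, for some `j`, are such that `X_t` has no atypical intersections.
(2) For `τ = 0`, for almost all `u` this is true for all `θ < 1 / (s + 1)`.
(3) For one parameter (`s = 0`) and `τ = 0` there is one set `E` of Hausdorff dimension zero for all `θ < 1`. So for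
example for all real numbers `u > 1` outside a set of dimension zero, and every `θ < 1`, ALL integers `t` with
`|t - u^j| ≤ u^(θ j)`, `j ≥ j₀`, are good parameters for the family.

The theorems of the starting files count the exceptional parameters in boxes (`ManyParameters`: at most
`B ^ (s + ε)`), or exclude a set of times of density zero (`RandomOrbits`). Here the vectors `(r_j / ‖u‖) u` are
exponentially sparse, and there are no exceptions at all: all the `r_j ^ (θ (s + 1))` parameters near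
each of them are good.

Proof. By the local criterion of the starting files (`Pool.Agent.N763.RO`, copied) a member is good if `h_l(t)` has a
prime factor above `P₀` which does not divide `G_l(t)`, for each `l`. There are countably many pairs `(h, G)`; for each
of them the exceptional vectors are counted in `Pool.Agent.R424.MP`, and the tool `Pool.Agent.R482.ST` bounds
the dimension of the set of the `u` for which infinitely many exceptional vectors are near the sequence.
-/

set_option autoImplicit false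

namespace Pool.Agent.Results.MP_c95b3b_ag.StarshapedParametersH14

open MeasureTheory
open Pool.Agent.V7H14.TR (AlmostAllGood almostAllGood_of win_fin Dat Bd count_Bd)

/-- the functions `f n` are positive on `(a, ∞)`, `a ≥ 0`, and `f n x / x` is nondecreasing there -/
def Starshaped (a : ℝ) (f : ℕ → ℝ → ℝ) : Prop :=
  0 ≤ a ∧ ∀ n : ℕ, ∀ x y : ℝ, a < x → x ≤ y → 0 < f n x ∧ f n x / x ≤ f n y / y

/-- for each `x > a` the exponent of convergence of the sequence `f n x` is at most `τ` -/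
def ExpLe (a : ℝ) (f : ℕ → ℝ → ℝ) (τ : ℝ) : Prop :=
  ∀ x : ℝ, a < x → ∀ t : ℝ, τ < t → Summable (fun n : ℕ => (f n x) ^ (-t))

/-- the integral vectors `t` whose coordinates differ by at most `c r ^ θ` from those of `(r / ‖u‖) u`,
`r = f j ‖u‖`, for some `j` -/
def Near {s : ℕ} (f : ℕ → ℝ → ℝ) (c θ : ℝ) (u : Fin (s + 1) → ℝ) : Set (Fin (s + 1) → ℤ) :=
  {t | ∃ j : ℕ, ∀ i, |(t i : ℝ) - f j ‖u‖ / ‖u‖ * u i| ≤ c * (f j ‖u‖) ^ θ}

lemma near_of {s : ℕ} {f : ℕ → ℝ → ℝ} {c θ : ℝ} {u : Fin (s + 1) → ℝ} {P : Set (Fin (s + 1) → ℤ)}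
    (h : ∃ k₀ : ℕ, ∀ k : ℕ, k₀ ≤ k → ∀ t : Fin (s + 1) → ℤ,
      (∀ i, |(t i : ℝ) - f k ‖u‖ / ‖u‖ * u i| ≤ c * (f k ‖u‖) ^ θ) → t ∉ P) :
    {t | t ∈ Near f c θ u ∧ t ∈ P}.Finite := by
  obtain ⟨k₀, hk⟩ := h
  refine (Set.Finite.biUnion (Set.finite_lt_nat k₀)
    (fun j _ => win_fin (fun i => f j ‖u‖ / ‖u‖ * u i) (c * (f j ‖u‖) ^ θ))).subset ?_
  rintro t ⟨⟨j, hj⟩, htP⟩
  rw [Set.mem_iUnion₂]
  refine ⟨j, ?_, hj⟩
  show j < k₀
  by_contra hcon
  exact hk j (not_lt.1 hcon) t hj htP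

lemma near_mono {s : ℕ} {a : ℝ} {f : ℕ → ℝ → ℝ} {τ : ℝ} (hf : Starshaped a f) (hτ : 0 ≤ τ) (hE : ExpLe a f τ)
    {u : Fin (s + 1) → ℝ} (hu : a < ‖u‖) (c : ℝ) {θ θ' : ℝ} (hθ : θ ≤ θ') :
    (Near f c θ u \ Near f |c| θ' u).Finite := by
  have hfp : ∀ n, 0 < f n ‖u‖ := fun n => (hf.2 n _ _ hu le_rfl).1
  have hlarge := Pool.Agent.R482.ST.large hfp (show 0 < τ + 1 by linarith) (hE ‖u‖ hu (τ + 1) (by linarith)) 1
  obtain ⟨n1, hn1⟩ := Filter.eventually_atTop.1 hlarge
  refine (near_of (P := {t | t ∉ Near f |c| θ' u}) ⟨n1, fun k hk t ht hcon => hcon ⟨k, fun i => (ht i).trans ?_⟩⟩).subset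
    fun t ht => ht
  have h1 : 1 ≤ f k ‖u‖ := hn1 k hk
  exact mul_le_mul (le_abs_self c) (Real.rpow_le_rpow_of_exponent_le h1 hθ)
    (Real.rpow_nonneg (by linarith) _) (abs_nonneg c)

lemma main (s : ℕ) (a : ℝ) (f : ℕ → ℝ → ℝ) (τ θ : ℝ) (hf : Starshaped a f) (hτ : 0 ≤ τ) (hE : ExpLe a f τ)
    (hθ : θ < 1) : ∃ E : Set (Fin (s + 1) → ℝ), dimH E ≤ ENNReal.ofReal ((s + τ) / (1 - θ)) ∧
      ∀ u : Fin (s + 1) → ℝ, a < ‖u‖ → u ∉ E → ∀ c : ℝ, AlmostAllGood s (Near f c θ u) := by
  have h1 : ∀ d : Dat s, ∃ E : Set (Fin (s + 1) → ℝ), dimH E ≤ ENNReal.ofReal ((s + τ) / (1 - θ)) ∧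
      ∀ u : Fin (s + 1) → ℝ, a < ‖u‖ → u ∉ E → ∀ c : ℝ, ∃ k₀ : ℕ, ∀ k : ℕ, k₀ ≤ k → ∀ t : Fin (s + 1) → ℤ,
        (∀ i, |(t i : ℝ) - f k ‖u‖ / ‖u‖ * u i| ≤ c * (f k ‖u‖) ^ θ) → t ∉ Bd d := fun d =>
    Pool.Agent.R482.ST.vec_prop (ι := Fin (s + 1)) (fun t _ => t ∈ Bd d) (fun _ _ _ _ h => h)
      (s := (s : ℝ)) (Nat.cast_nonneg s) (fun ε hε => count_Bd d hε) f a τ θ hf hτ hE hθ
  choose E hE1 hE2 using h1
  refine ⟨⋃ d, E d, ?_, fun u hu huE c => almostAllGood_of fun d => near_of ?_⟩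
  · rw [dimH_iUnion]
    exact iSup_le hE1
  · rw [Set.mem_iUnion, not_exists] at huE
    exact hE2 d u hu (huE d) c

/-- **Theorem.** (1) One exceptional set, of Hausdorff dimension at most `(s + τ) / (1 - θ)`, for all families of
subvarieties of tori with `s + 1` integral parameters. (2) For `τ = 0` and almost all `u` the same is true for all
`θ < 1 / (s + 1)`. (3) For one parameter and `τ = 0` the set has Hausdorff dimension zero and is independent of `θ < 1`.
(4)-(6) The functions `v_n x`, `x ^ (v_n)` and the iterates of a map are examples. -/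
theorem result :
    (∀ (s : ℕ) (a : ℝ) (f : ℕ → ℝ → ℝ) (τ θ : ℝ), Starshaped a f → 0 ≤ τ → ExpLe a f τ → θ < 1 →
      ∃ E : Set (Fin (s + 1) → ℝ), dimH E ≤ ENNReal.ofReal ((s + τ) / (1 - θ)) ∧
        ∀ u : Fin (s + 1) → ℝ, a < ‖u‖ → u ∉ E → ∀ c : ℝ, AlmostAllGood s (Near f c θ u)) ∧
    (∀ (s : ℕ) (a : ℝ) (f : ℕ → ℝ → ℝ), Starshaped a f → ExpLe a f 0 →
      ∀ᵐ u : Fin (s + 1) → ℝ, a < ‖u‖ → ∀ θ c : ℝ, θ < 1 / (s + 1) → AlmostAllGood s (Near f c θ u)) ∧
    (∀ (a : ℝ) (f : ℕ → ℝ → ℝ), Starshaped a f → ExpLe a f 0 →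
      ∃ E : Set (Fin 1 → ℝ), dimH E = 0 ∧
        ∀ u : Fin 1 → ℝ, a < ‖u‖ → u ∉ E → ∀ θ c : ℝ, θ < 1 → AlmostAllGood 0 (Near f c θ u)) ∧
    (∀ (v : ℕ → ℝ) (τ : ℝ), (∀ n, 0 < v n) → (∀ t : ℝ, τ < t → Summable (fun n : ℕ => (v n) ^ (-t))) →
      Starshaped 0 (fun n x => v n * x) ∧ ExpLe 0 (fun n x => v n * x) τ) ∧
    (∀ v : ℕ → ℝ, (∀ n, 1 ≤ v n) → (∀ t : ℝ, 0 < t → Summable fun n : ℕ => Real.exp (-(t * v n))) →
      Starshaped 1 (fun n x => x ^ (v n)) ∧ ExpLe 1 (fun n x => x ^ (v n)) 0) ∧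
    (∀ (a : ℝ) (g : ℝ → ℝ), 0 ≤ a → (∀ x y : ℝ, a < x → x ≤ y → g x / x ≤ g y / y) → (∀ x : ℝ, a < x → x < g x) →
      Starshaped a (fun n x => g^[n] x) ∧ ExpLe a (fun n x => g^[n] x) 0) := by
  refine ⟨main, fun s a f hf hE => ?_, fun a f hf hE => ?_, Pool.Agent.R482.ST.ex_mul, Pool.Agent.R482.ST.ex_pow,
    Pool.Agent.R482.ST.ex_orbit⟩
  · have hs0 : (0 : ℝ) < (s : ℝ) + 1 := by positivity
    have h1 : ∀ θ : ℚ, ∀ᵐ u : Fin (s + 1) → ℝ, a < ‖u‖ → (θ : ℝ) < 1 / (s + 1) → ∀ c : ℝ,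
        AlmostAllGood s (Near f c θ u) := by
      intro θ
      by_cases hθ : (θ : ℝ) < 1 / (s + 1)
      · have hθ1 : (θ : ℝ) * (s + 1) < 1 := by rwa [lt_div_iff₀ hs0] at hθ
        have hθ2 : (θ : ℝ) < 1 := by
          refine lt_of_lt_of_le hθ ?_
          rw [div_le_one hs0]
          linarith [Nat.cast_nonneg (α := ℝ) s]
        obtain ⟨E, hE1, hE2⟩ := main s a f 0 θ hf le_rfl hE hθ2
        have hzero : volume E = 0 := by
          refine measure_zero_of_dimH_lt (d := ((s + 1 : ℕ) : NNReal)) ?_ ?_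
          · have h := hausdorffMeasure_pi_real (ι := Fin (s + 1))
            rw [Fintype.card_fin] at h
            have h' : (((s + 1 : ℕ) : NNReal) : ℝ) = ((s + 1 : ℕ) : ℝ) := by push_cast; rfl
            rw [h', h]
          · refine lt_of_le_of_lt hE1 ?_
            have h2 : (((s + 1 : ℕ) : NNReal) : ENNReal) = ENNReal.ofReal ((s : ℝ) + 1) := by
              have h3 : ((s : ℝ) + 1) = ((s + 1 : ℕ) : ℝ) := by push_cast; rfl
              rw [h3, ENNReal.ofReal_natCast]
              rfl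
            rw [h2]
            refine (ENNReal.ofReal_lt_ofReal_iff hs0).2 ?_
            rw [div_lt_iff₀ (by linarith)]
            nlinarith
        have hae : ∀ᵐ u : Fin (s + 1) → ℝ, u ∉ E := by
          rw [ae_iff]
          simpa using hzero
        filter_upwards [hae] with u hu hau _
        exact hE2 u hau hu
      · exact Filter.Eventually.of_forall fun u _ h2 => absurd h2 hθ
    rw [← ae_all_iff] at h1
    filter_upwards [h1] with u hu hau θ c hθ
    obtain ⟨θ', h2, h3⟩ := exists_rat_btwn hθ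
    exact (hu θ' hau h3 |c|).mono (near_mono hf le_rfl hE hau c h2.le)
  · have h1 : ∀ θ : {θ : ℚ // (θ : ℝ) < 1}, ∃ E : Set (Fin 1 → ℝ), dimH E = 0 ∧
        ∀ u : Fin 1 → ℝ, a < ‖u‖ → u ∉ E → ∀ c : ℝ, AlmostAllGood 0 (Near f c (θ : ℚ) u) := by
      intro θ
      obtain ⟨E, hE1, hE2⟩ := main 0 a f 0 (θ : ℚ) hf le_rfl hE θ.2
      refine ⟨E, ?_, hE2⟩
      have h2 : (((0 : ℕ) : ℝ) + 0) / (1 - ((θ : ℚ) : ℝ)) = 0 := by simp
      rw [h2, ENNReal.ofReal_zero] at hE1
      exact nonpos_iff_eq_zero.1 hE1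
    choose E hE1 hE2 using h1
    refine ⟨⋃ θ, E θ, ?_, fun u hau huE θ c hθ => ?_⟩
    · rw [dimH_iUnion]
      simp [hE1]
    · rw [Set.mem_iUnion, not_exists] at huE
      obtain ⟨θ', h2, h3⟩ := exists_rat_btwn hθ
      exact (hE2 ⟨θ', h3⟩ u hau (huE _) |c|).mono (near_mono hf le_rfl hE hau c h2.le)

end Pool.Agent.Results.MP_c95b3b_ag.StarshapedParametersH14
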